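import Pool.Agent.Helper16.FAM.Defs

/-!
# FAM, piece T1: a function field with additional independent variables
-/

namespace Pool.Agent.Helper50.FAM

open Pool.Agent.Helper16.FAM Polynomial

universe u

section
variable {k L K : Type u} [Field k] [Field L] [Algebra k L] [Field K] [Algebra L K] [Algebra k K]
  [IsScalarTower k L K]

/-- transcendence over the field of additional independent variables. -/
lemma transcendental_aux {t : L} (ht : Transcendental k t) {ι : Type} {x : ι → K}
    (hx : AlgebraicIndependent L x) :
    Transcendental (IntermediateField.adjoin k (Set.range x)) (algebraMap L K t) := by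
  rw [IntermediateField.transcendental_adjoin_iff]
  have h1 : AlgebraicIndependent k (fun _ : Unit => t) :=
    algebraicIndependent_unique_type_iff.mpr ht
  have h2 := h1.sumElim_comp hx
  have h3 := h2.transcendental_adjoin (s := Set.range Sum.inl) (i := Sum.inr ())
    (by rintro ⟨y, hy⟩; cases hy)
  rw [← Set.range_comp] at h3
  exact h3

/-- finiteness. -/
lemma finite_aux {t : L} [hfin : FiniteDimensional (IntermediateField.adjoin k {t}) L] {ι : Type}
    {x : ι → K} {P : Type u} [CommRing P] [IsDomain P] [Algebra P K] [IsFractionRing P K]
    (hP : ∀ (S : Subfield K), (∀ i, x i ∈ S) → (∀ a : L, algebraMap L K a ∈ S) →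
      ∀ p : P, algebraMap P K p ∈ S) :
    FiniteDimensional (IntermediateField.adjoin
      (IntermediateField.adjoin k (Set.range x)) {algebraMap L K t}) K := by
  set K' := IntermediateField.adjoin k (Set.range x) with hK'
  set M := IntermediateField.adjoin K' {algebraMap L K t} with hM
  have hmem : ∀ z : IntermediateField.adjoin k {t}, algebraMap L K (z : L) ∈ M := by
    rintro ⟨z, hz⟩
    show algebraMap L K z ∈ M
    refine IntermediateField.adjoin_induction k (p := fun z _ => algebraMap L K z ∈ M)
      ?_ ?_ ?_ ?_ ?_ hz
    · rintro y rfl
      exact IntermediateField.subset_adjoin _ _ rfl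
    · intro y
      have : algebraMap L K (algebraMap k L y) = algebraMap K' K (algebraMap k K' y) := by
        rw [← IsScalarTower.algebraMap_apply k L K, ← IsScalarTower.algebraMap_apply k K' K]
      rw [this]
      exact M.algebraMap_mem _
    · intro a b _ _ ha hb
      rw [map_add]; exact add_mem ha hb
    · intro a _ ha
      rw [map_inv₀]; exact inv_mem ha
    · intro a b _ _ ha hb
      rw [map_mul]; exact mul_mem ha hb
  let φ : IntermediateField.adjoin k {t} →+* M :=
    ((algebraMap L K).comp (algebraMap (IntermediateField.adjoin k {t}) L)).codRestrict M hmem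
  have hint : ∀ b : L, IsIntegral M (algebraMap L K b) := by
    intro b
    have hb : IsIntegral (IntermediateField.adjoin k {t}) b := Algebra.IsIntegral.isIntegral b
    exact hb.map_of_comp_eq φ (algebraMap L K) (by ext z; rfl)
  let b := Module.finBasis (IntermediateField.adjoin k {t}) L
  let N := IntermediateField.adjoin M (Set.range fun j => algebraMap L K (b j))
  have hN : FiniteDimensional M N :=
    IntermediateField.finiteDimensional_adjoin (by rintro _ ⟨j, rfl⟩; exact hint _)
  have htop : N = ⊤ := by
    rw [eq_top_iff]
    rintro z -
    have h1 : ∀ p : P, algebraMap P K p ∈ N := by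
      refine hP N.toSubfield ?_ ?_
      · intro i
        have : x i ∈ K' := IntermediateField.subset_adjoin _ _ ⟨i, rfl⟩
        have e : x i = algebraMap M K (algebraMap K' M ⟨x i, this⟩) := rfl
        rw [e]
        exact N.algebraMap_mem _
      · intro a
        rw [← b.sum_repr a, map_sum]
        refine sum_mem fun j _ => ?_
        rw [Algebra.smul_def, map_mul]
        refine mul_mem ?_ (IntermediateField.subset_adjoin _ _ ⟨j, rfl⟩)
        have e : algebraMap L K (algebraMap (IntermediateField.adjoin k {t}) L (b.repr a j))
          = algebraMap M K (φ (b.repr a j)) := rfl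
        rw [e]
        exact N.algebraMap_mem _
    obtain ⟨p, q, -, rfl⟩ := IsFractionRing.div_surjective (A := P) z
    exact div_mem (h1 p) (h1 q)
  have h5 : FiniteDimensional M (⊤ : IntermediateField M K) := htop ▸ hN
  exact LinearEquiv.finiteDimensional (IntermediateField.topEquiv (F := M) (E := K)).toLinearEquiv

end

/-- T1: a function field with additional independent variables. -/
theorem isFF_frac {k L : Type u} [Field k] [CharZero k] [Field L] [Algebra k L] {t : L}
    (h : IsFF k L t) (n : ℕ) :
    IsFF (IntermediateField.adjoin k (Set.range fun i : Fin n =>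
        algebraMap (MvPolynomial (Fin n) L) (FractionRing (MvPolynomial (Fin n) L))
          (MvPolynomial.X i)))
      (FractionRing (MvPolynomial (Fin n) L))
      (algebraMap L (FractionRing (MvPolynomial (Fin n) L)) t) := by
  have hx : AlgebraicIndependent L (fun i : Fin n =>
      algebraMap (MvPolynomial (Fin n) L) (FractionRing (MvPolynomial (Fin n) L))
        (MvPolynomial.X i)) :=
    (MvPolynomial.algebraicIndependent_X (Fin n) L).map'
      (f := IsScalarTower.toAlgHom L (MvPolynomial (Fin n) L)
        (FractionRing (MvPolynomial (Fin n) L)))
      (IsFractionRing.injective (MvPolynomial (Fin n) L) (FractionRing (MvPolynomial (Fin n) L)))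
  refine ⟨transcendental_aux h.tr hx, ?_⟩
  have := h.fin
  refine finite_aux (P := MvPolynomial (Fin n) L) ?_
  intro S hS hL p
  induction p using MvPolynomial.induction_on with
  | C a =>
    have e : algebraMap (MvPolynomial (Fin n) L) (FractionRing (MvPolynomial (Fin n) L))
      (MvPolynomial.C a) = algebraMap L (FractionRing (MvPolynomial (Fin n) L)) a := by
      rw [IsScalarTower.algebraMap_apply L (MvPolynomial (Fin n) L)
        (FractionRing (MvPolynomial (Fin n) L)), MvPolynomial.algebraMap_eq]
    rw [e]
    exact hL a
  | add p q hp hq => rw [map_add]; exact add_mem hp hq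
  | mul_X p i hp => rw [map_mul]; exact mul_mem hp (hS i)

end Pool.Agent.Helper50.FAM
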